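import Pool.Agent.H398.Kt.MainC

/-!
# MP_d74811_al: the gamma invariant is an algebraic integer if it is at most 2, for all modules in
characteristic 2 and for all stably self-dual modules in every prime characteristic
-/

set_option autoImplicit false

namespace Pool.Agent.Results.MP_d74811_al.AtMostTwo

open Pool.Agent.H398.Gam Ob

universe u v

theorem isIntegral_cos (n : ℕ) : IsIntegral ℤ (2 * Real.cos (Real.pi / n)) := by
  have h := Real.isIntegral_two_mul_cos_rat_mul_pi (1 / n : ℚ)
  have e : ((1 / n : ℚ) : ℝ) * Real.pi = Real.pi / n := by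
    push_cast
    ring
  rwa [e] at h

theorem result (p : ℕ) [Fact p.Prime] (k : Type u) [Field k] [CharP k p]
    (G : Type v) [Group G] [Fintype G] (M : Ob k G)
    (h : p = 2 ∨ ∃ P Q : Ob k G, P.IsProj ∧ Q.IsProj ∧ (M.prod P).Iso (M.dual.prod Q))
    (h2 : M.gamma ≤ 2) : IsIntegral ℤ M.gamma := by
  by_cases hM : M.IsProj
  · rw [gamma_isProj hH M hM]
    exact isIntegral_zero
  · have h1 := gamma_pos hH M hM
    rcases h1.eq_or_lt with h1 | h1
    · rw [← h1]
      exact isIntegral_one
    · rcases h2.eq_or_lt with h2 | h2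
      · rw [h2]
        exact_mod_cast (isIntegral_algebraMap : IsIntegral ℤ (algebraMap ℤ ℝ 2))
      · rcases h with h | h
        · subst h
          obtain ⟨i, _, hv⟩ := Pool.Agent.H398.Kt.charTwo_final G M h1 h2
          rw [hv]
          exact isIntegral_cos _
        · obtain ⟨n, _, hv⟩ := part2 p M h h1 h2
          rw [hv]
          exact isIntegral_cos _

end Pool.Agent.Results.MP_d74811_al.AtMostTwo
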