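import Pool.Agent.H398.Kt.MainC

/-!
# MP_d74811_al: `γ(M ⊗ M^*)` is an algebraic integer if it is at most 4
-/

set_option autoImplicit false

namespace Pool.Agent.Results.MP_d74811_al.TensDual

open Pool.Agent.H398.Gam Ob

universe u v

theorem isIntegral_cos (n : ℕ) : IsIntegral ℤ (2 * Real.cos (Real.pi / n)) := by
  have h := Real.isIntegral_two_mul_cos_rat_mul_pi (1 / n : ℚ)
  have e : ((1 / n : ℚ) : ℝ) * Real.pi = Real.pi / n := by
    push_cast
    ring
  rwa [e] at h

theorem result (p : ℕ) [Fact p.Prime] (k : Type u) [Field k] [CharP k p]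
    (G : Type v) [Group G] [Fintype G] (M : Ob k G) (h4 : (M.tens M.dual).gamma ≤ 4) :
    IsIntegral ℤ (M.tens M.dual).gamma := by
  rcases h4.eq_or_lt with h4 | h4
  · rw [h4]
    exact_mod_cast (isIntegral_algebraMap : IsIntegral ℤ (algebraMap ℤ ℝ 4))
  · by_cases hM : M.IsProj
    · rw [gamma_isProj hH _ (isProj_tens hH hM _)]
      exact isIntegral_zero
    · rcases tensDual_main p M hM h4 with h | ⟨n, _, hv⟩
      · rw [Pool.Agent.H398.Kt.gamma_endo M hM h]
        exact isIntegral_one
      · rw [hv]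
        exact (isIntegral_cos n).pow 2

end Pool.Agent.Results.MP_d74811_al.TensDual
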