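import Pool.Agent.H398.Kt.Summ4

/-!
# MP_d74811_al, characteristic 2: direct summands of direct sums of tensor products of modules
with `γ < 2` or with algebraic `M ⊗ M^*`
-/

set_option autoImplicit false

namespace Pool.Agent.Results.MP_d74811_al.TensorSummands

open Pool.Agent.H398.Gam Ob
open Pool.Agent.H398.Kt (AlgEnd Indec)

universe u v

theorem result (k : Type u) [Field k] [CharP k 2] (G : Type v) [Group G] [Fintype G]
    (L : List (List (Ob k G))) (hL : ∀ l ∈ L, ∀ M ∈ l, M.gamma < 2 ∨ AlgEnd M) (N N' : Ob k G)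
    (hiso : ((L.map (fun l => l.foldr Ob.tens (Ob.one k G))).foldr Ob.prod (Ob.zero k G)).Iso
      (N.prod N')) : IsIntegral ℤ N.gamma :=
  Pool.Agent.H398.Kt.summ_sum' G L hL N N' hiso

end Pool.Agent.Results.MP_d74811_al.TensorSummands
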